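import Pool.Agent.R368.Sep.Defs
import Pool.Agent.R368.Deg.Main
import Pool.Agent.R903.Summand

/-!
# Correspondences which separate the degrees
-/

open CategoryTheory CategoryTheory.Limits AlgebraicGeometry Polynomial
open Pool.Agent.H914 Pool.Agent.H914.VarClass Pool.Agent.H914.VarClass.Obj
open Pool.Agent.R903 Pool.Agent.R903.WeilTheory

universe u v w

namespace Pool.Agent.R368

variable {k : Type u} [Field k] {𝒱 : VarClass k} {C : ChowTheory.{u, v} 𝒱}
  {W : WeilTheory.{u, v, w} C} {X : 𝒱.Obj}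

/-- **A variety with an algebraic degree operator has a Chow–Künneth decomposition.** -/
theorem exists_CK_poly {d : C.CH (X.prod X)} (hd : W.IsDegree X d) {Q : ℚ[X]}
    (hQ : Q ≠ 0) (h : aeval (CorrRing.of C X d) Q = 0) :
    ∃ π : ℕ → C.CH (X.prod X), W.IsCK X π ∧
      ∀ j, ∃ p : ℚ[X], π j = (CorrRing.of C X).symm (aeval (CorrRing.of C X d) p) := by
  classical
  set N := 2 * X.dim + 1 with hN
  set δ := CorrRing.of C X d with hδ
  set Q1 := Q * pol (Finset.range N) with hQ1
  have hP0 : pol (Finset.range N) ≠ 0 := by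
    rw [pol, Finset.prod_ne_zero_iff]
    exact fun j _ => X_sub_C_ne_zero _
  have hQ10 : Q1 ≠ 0 := mul_ne_zero hQ hP0
  have hmod : ∀ p : ℚ[X], Q1 ∣ p → aeval δ p = 0 := by
    rintro p ⟨r, rfl⟩
    rw [hQ1, map_mul, map_mul, h, zero_mul, zero_mul]
  -- local factors
  have key : ∀ j : ℕ, j < N → ∃ (m : ℕ) (q u v : ℚ[X]), 0 < m ∧
      Q1 = (Polynomial.X - Polynomial.C (j : ℚ)) ^ m * q ∧ u * (Polynomial.X - Polynomial.C (j : ℚ)) ^ m + v * q = 1 := by
    intro j hj
    obtain ⟨q, hq, hndvd⟩ := Polynomial.exists_eq_pow_rootMultiplicity_mul_and_not_dvd Q1 hQ10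
      (j : ℚ)
    have hcop : IsCoprime ((Polynomial.X - Polynomial.C (j : ℚ)) ^ (rootMultiplicity (j : ℚ) Q1)) q := by
      apply IsCoprime.pow_left
      exact (Polynomial.irreducible_X_sub_C _).coprime_iff_not_dvd.2 hndvd
    obtain ⟨u, v, huv⟩ := hcop
    refine ⟨rootMultiplicity (j : ℚ) Q1, q, u, v, ?_, hq, huv⟩
    rw [Polynomial.rootMultiplicity_pos hQ10, IsRoot, hQ1, eval_mul,
      pol_eval_mem (Finset.mem_range.2 hj), mul_zero]
  choose! m q u v hm hq huv using key
  set E : ℕ → ℚ[X] := fun j => v j * q j with hE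
  have hEE : ∀ j, j < N → aeval δ (E j) * aeval δ (E j) = aeval δ (E j) := by
    intro j hj
    rw [← sub_eq_zero, ← map_mul, ← map_sub]
    apply hmod
    refine ⟨-(v j * u j), ?_⟩
    have h1 : v j * q j = 1 - u j * (Polynomial.X - Polynomial.C (j : ℚ)) ^ m j := by rw [← huv j hj]; ring
    simp only [hE]
    calc v j * q j * (v j * q j) - v j * q j = v j * q j * (v j * q j - 1) := by ring
      _ = v j * q j * (-(u j * (Polynomial.X - Polynomial.C (j : ℚ)) ^ m j)) := by rw [h1]; ring
      _ = ((Polynomial.X - Polynomial.C (j : ℚ)) ^ m j * q j) * (-(v j * u j)) := by ring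
      _ = Q1 * (-(v j * u j)) := by rw [← hq j hj]
  have hdvd : ∀ i j, i < N → j < N → i ≠ j → (Polynomial.X - Polynomial.C (i : ℚ)) ^ m i ∣ q j := by
    intro i j hi hj hij
    have h1 : (Polynomial.X - Polynomial.C (i : ℚ)) ^ m i ∣ (Polynomial.X - Polynomial.C (j : ℚ)) ^ m j * q j := by
      rw [← hq j hj]; exact Dvd.intro _ (hq i hi).symm
    refine IsCoprime.dvd_of_dvd_mul_left ?_ h1
    apply IsCoprime.pow
    apply isCoprime_X_sub_C_of_isUnit_sub
    rw [isUnit_iff_ne_zero, sub_ne_zero]
    exact_mod_cast hij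
  have hEij : ∀ i j, i < N → j < N → i ≠ j → aeval δ (E i) * aeval δ (E j) = 0 := by
    intro i j hi hj hij
    rw [← map_mul]
    apply hmod
    obtain ⟨r, hr⟩ := hdvd i j hi hj hij
    refine ⟨r * (v i * v j), ?_⟩
    simp only [hE]
    rw [hr]
    calc v i * q i * (v j * ((Polynomial.X - Polynomial.C (i : ℚ)) ^ m i * r)) =
        ((Polynomial.X - Polynomial.C (i : ℚ)) ^ m i * q i) * (r * (v i * v j)) := by ring
      _ = Q1 * (r * (v i * v j)) := by rw [← hq i hi]
  have heval : ∀ j, j < N → (E j).eval (j : ℚ) = 1 := by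
    intro j hj
    have h1 : E j = 1 - u j * (Polynomial.X - Polynomial.C (j : ℚ)) ^ m j := by
      simp only [hE]; rw [← huv j hj]; ring
    rw [h1]
    simp [(hm j hj).ne']
  have heval' : ∀ i j, i < N → j < N → i ≠ j → (E j).eval (i : ℚ) = 0 := by
    intro i j hi hj hij
    obtain ⟨r, hr⟩ := hdvd i j hi hj hij
    simp only [hE]
    rw [hr]
    simp [(hm i hi).ne']
  -- the decomposition
  set e : ℕ → CorrRing C X := fun j => if j < N then aeval δ (E j) else 0 with he
  have hee : ∀ i j, e i * e j = if i = j then e i else 0 := by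
    intro i j
    simp only [he]
    by_cases hi : i < N
    · rw [if_pos hi]
      by_cases hj : j < N
      · rw [if_pos hj]
        split_ifs with hij
        · subst hij; exact hEE i hi
        · exact hEij i j hi hj hij
      · rw [if_neg hj, mul_zero, if_neg (by rintro rfl; exact hj hi)]
    · rw [if_neg hi, zero_mul, ite_self]
  set f : CorrRing C X := 1 - ∑ j ∈ Finset.range N, e j with hf
  have hsum_e : ∀ i, i < N → (∑ j ∈ Finset.range N, e j) * e i = e i := by
    intro i hi
    rw [Finset.sum_mul, Finset.sum_eq_single i]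
    · rw [hee, if_pos rfl]
    · intro j _ hj; rw [hee, if_neg hj]
    · intro h1; exact absurd (Finset.mem_range.2 hi) h1
  have he_sum : ∀ i, i < N → e i * (∑ j ∈ Finset.range N, e j) = e i := by
    intro i hi
    rw [Finset.mul_sum, Finset.sum_eq_single i]
    · rw [hee, if_pos rfl]
    · intro j _ hj; rw [hee, if_neg (Ne.symm hj)]
    · intro h1; exact absurd (Finset.mem_range.2 hi) h1
  have hfe : ∀ i, f * e i = 0 := by
    intro i
    by_cases hi : i < N
    · rw [hf, sub_mul, one_mul, hsum_e i hi, sub_self]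
    · simp only [he]; rw [if_neg hi, mul_zero]
  have hef : ∀ i, e i * f = 0 := by
    intro i
    by_cases hi : i < N
    · rw [hf, mul_sub, mul_one, he_sum i hi, sub_self]
    · simp only [he]; rw [if_neg hi, zero_mul]
  have hff : f * f = f := by
    have h1 : (∑ j ∈ Finset.range N, e j) * f = 0 := by
      rw [Finset.sum_mul]; exact Finset.sum_eq_zero fun j _ => hef j
    conv_lhs => rw [hf]
    rw [sub_mul, one_mul, ← hf, h1, sub_zero]
  set π : ℕ → CorrRing C X := fun j => e j + if j = 0 then f else 0 with hπ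
  have hππ : ∀ i j, π i * π j = if i = j then π i else 0 := by
    intro i j
    simp only [hπ]
    rw [mul_add, add_mul, add_mul, hee]
    by_cases hi : i = 0
    · by_cases hj : j = 0
      · subst hi; subst hj
        rw [if_pos rfl, if_pos rfl, if_pos rfl, hfe, hef, hff]
        abel
      · subst hi
        rw [if_neg (Ne.symm hj), if_pos rfl, if_neg hj, if_neg (Ne.symm hj), hfe, mul_zero,
          mul_zero]
        simp
    · by_cases hj : j = 0
      · subst hj
        rw [if_neg hi, if_neg hi, if_pos rfl, if_neg hi, hef, zero_mul, zero_mul]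
        simp
      · rw [if_neg hi, if_neg hj, zero_mul, mul_zero, mul_zero]
        simp
  have hfgr : (CorrRing.of C X).symm f ∈ C.gr (X.prod X) X.dim := by
    rw [hf, map_sub, map_sum]
    refine Submodule.sub_mem _ (C.diagC_mem X) (Submodule.sum_mem _ fun j _ => ?_)
    simp only [he]
    split_ifs
    · exact C.aeval_mem_gr hd.1 _
    · exact Submodule.zero_mem _
  have hacte : ∀ j l, ∀ a ∈ W.gr X l, W.act ((CorrRing.of C X).symm (e j)) a =
      if l = j then a else 0 := by
    intro j l a ha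
    by_cases hl : 2 * X.dim < l
    · rw [W.gr_eq_bot X l hl, Submodule.mem_bot] at ha
      rw [ha]; simp
    simp only [he]
    by_cases hj : j < N
    · rw [if_pos hj]
      have h1 : W.act d a = (((l : ℚ) : ℚ) : W.K) • a := by rw [hd.2 l a ha]; push_cast; rfl
      rw [act_aeval hd.1 h1]
      split_ifs with hlj
      · subst hlj; rw [heval l hj]; simp
      · rw [heval' l j (by omega) hj hlj]; simp
    · rw [if_neg hj, if_neg (by omega), map_zero, W.act_zero, LinearMap.zero_apply]
  have hactf : ∀ l, ∀ a ∈ W.gr X l, W.act ((CorrRing.of C X).symm f) a = 0 := by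
    intro l a ha
    rw [hf, map_sub, map_sum, W.act_sub, W.act_sum, LinearMap.sub_apply, LinearMap.sum_apply]
    have h1 : W.act ((CorrRing.of C X).symm 1) a = a := W.act_diagC a
    rw [h1, Finset.sum_congr rfl (fun j _ => hacte j l a ha), Finset.sum_ite_eq]
    by_cases hl : 2 * X.dim < l
    · rw [W.gr_eq_bot X l hl, Submodule.mem_bot] at ha
      rw [ha]; simp
    · rw [if_pos (Finset.mem_range.2 (by omega)), sub_self]
  refine ⟨fun j => (CorrRing.of C X).symm (π j), ⟨fun j => ?_, fun j => ?_, fun i j hij => ?_, ?_,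
    fun j => ?_⟩, fun j => ?_⟩
  · simp only [hπ, he]
    rw [map_add]
    refine Submodule.add_mem _ ?_ ?_
    · split_ifs
      · exact C.aeval_mem_gr hd.1 _
      · exact Submodule.zero_mem _
    · split_ifs
      · exact hfgr
      · exact Submodule.zero_mem _
  · have := hππ j j
    rw [if_pos rfl] at this
    exact this
  · have := hππ j i
    rw [if_neg (Ne.symm hij)] at this
    exact this
  · have h1 : ∑ j ∈ Finset.range N, π j = 1 := by
      simp only [hπ]
      rw [Finset.sum_add_distrib, Finset.sum_ite_eq', if_pos (Finset.mem_range.2 (by omega)), hf]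
      abel
    exact h1
  · intro l a ha
    simp only [hπ]
    rw [map_add, W.act_add, LinearMap.add_apply, hacte j l a ha]
    by_cases hj : j = 0
    · rw [if_pos hj, hactf l a ha, add_zero]
    · rw [if_neg hj, map_zero, W.act_zero, LinearMap.zero_apply, add_zero]
  · refine ⟨(if j < N then E j else 0) + if j = 0 then 1 - ∑ l ∈ Finset.range N, E l else 0, ?_⟩
    have hee' : ∀ l, e l = aeval δ (if l < N then E l else 0) := by
      intro l
      simp only [he]
      split_ifs
      · rfl
      · rw [map_zero]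
    have h1 : π j = aeval δ ((if j < N then E j else 0) +
        if j = 0 then 1 - ∑ l ∈ Finset.range N, E l else 0) := by
      simp only [hπ]
      rw [map_add, ← hee' j]
      congr 1
      by_cases hj0 : j = 0
      · rw [if_pos hj0, if_pos hj0, hf, map_sub, map_one, map_sum]
        congr 1
        refine Finset.sum_congr rfl fun l hl => ?_
        rw [hee' l, if_pos (Finset.mem_range.1 hl)]
      · rw [if_neg hj0, if_neg hj0, map_zero]
    show (CorrRing.of C X).symm (π j) = _
    rw [h1]

/-! ### Polynomials in a correspondence -/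

lemma of_cpow (g : C.CH (X.prod X)) (m : ℕ) :
    CorrRing.of C X (cpow C g m) = (CorrRing.of C X g) ^ m := by
  induction m with
  | zero => rw [pow_zero]; rfl
  | succ m ih => rw [pow_succ', ← ih]; rfl

lemma of_cpoly (p : ℚ[X]) (g : C.CH (X.prod X)) :
    CorrRing.of C X (cpoly C p g) = aeval (CorrRing.of C X g) p := by
  rw [cpoly, polySum, aeval_def, eval₂_eq_sum, Polynomial.sum, Polynomial.sum, map_sum]
  refine Finset.sum_congr rfl fun i _ => ?_
  rw [map_smul, of_cpow, Algebra.smul_def]

lemma cpoly_eq (p : ℚ[X]) (g : C.CH (X.prod X)) :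
    cpoly C p g = (CorrRing.of C X).symm (aeval (CorrRing.of C X g) p) := by
  rw [← of_cpoly]; rfl

lemma cpoly_mem {g : C.CH (X.prod X)} (hg : g ∈ C.gr (X.prod X) X.dim) (p : ℚ[X]) :
    cpoly C p g ∈ C.gr (X.prod X) X.dim := by
  rw [cpoly_eq]; exact C.aeval_mem_gr hg p

lemma act_cpoly_mul {g : C.CH (X.prod X)} (hg : g ∈ C.gr (X.prod X) X.dim) (p q : ℚ[X])
    (a : W.H X) : W.act (cpoly C (p * q) g) a = W.act (cpoly C p g) (W.act (cpoly C q g) a) := by
  have h1 : cpoly C (p * q) g = C.comp (cpoly C q g) (cpoly C p g) := by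
    rw [cpoly_eq, map_mul, cpoly_eq, cpoly_eq]; rfl
  rw [h1, W.act_comp _ (cpoly_mem hg p)]

lemma act_cpoly_add (g : C.CH (X.prod X)) (p q : ℚ[X]) (a : W.H X) :
    W.act (cpoly C (p + q) g) a = W.act (cpoly C p g) a + W.act (cpoly C q g) a := by
  rw [cpoly_eq, map_add, map_add, W.act_add, LinearMap.add_apply, ← cpoly_eq, ← cpoly_eq]

lemma cpoly_one (g : C.CH (X.prod X)) : cpoly C 1 g = C.diagC X := by
  rw [cpoly_eq, map_one]; rfl

lemma cpoly_C_mul (q : ℚ) (p : ℚ[X]) (g : C.CH (X.prod X)) :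
    cpoly C (Polynomial.C q * p) g = q • cpoly C p g := by
  rw [cpoly_eq, map_mul, aeval_C, ← Algebra.smul_def, map_smul, ← cpoly_eq]

lemma cpoly_sum {ι : Type*} (s : Finset ι) (p : ι → ℚ[X]) (g : C.CH (X.prod X)) :
    cpoly C (∑ i ∈ s, p i) g = ∑ i ∈ s, cpoly C (p i) g := by
  rw [cpoly_eq, map_sum, map_sum]
  exact Finset.sum_congr rfl fun i _ => (cpoly_eq _ _).symm

/-- A polynomial in `g` is a degree operator. -/
theorem Separates.exists_degree {g : C.CH (X.prod X)} (h : Separates W X g) :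
    ∃ p : ℚ[X], W.IsDegree X (cpoly C p g) := by
  classical
  obtain ⟨hg, χ, hcop, hχ⟩ := h
  set N := 2 * X.dim + 1 with hN
  have key : ∀ j : ℕ, j < N → ∃ u v : ℚ[X],
      u * χ j + v * ∏ i ∈ (Finset.range N).erase j, χ i = 1 := by
    intro j hj
    have : IsCoprime (χ j) (∏ i ∈ (Finset.range N).erase j, χ i) := by
      apply IsCoprime.prod_right
      intro i hi
      rw [Finset.mem_erase, Finset.mem_range] at hi
      exact hcop j (by omega) i (by omega) (Ne.symm hi.1)
    exact this
  choose! u v huv using key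
  set E : ℕ → ℚ[X] := fun j => v j * ∏ i ∈ (Finset.range N).erase j, χ i with hE
  have hact : ∀ j l, j < N → l < N → ∀ a ∈ W.gr X l,
      W.act (cpoly C (E j) g) a = if j = l then a else 0 := by
    intro j l hj hl a ha
    split_ifs with hjl
    · subst hjl
      have h1 : u j * χ j + E j = 1 := huv j hj
      have h2 : W.act (cpoly C (u j * χ j + E j) g) a = a := by
        rw [h1, cpoly_one]; exact W.act_diagC a
      rw [act_cpoly_add, act_cpoly_mul hg, hχ j (by omega) a ha, map_zero, zero_add] at h2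
      exact h2
    · have h1 : E j = (v j * ∏ i ∈ ((Finset.range N).erase j).erase l, χ i) * χ l := by
        simp only [hE]
        rw [mul_assoc, Finset.prod_erase_mul _ _ (Finset.mem_erase.2 ⟨Ne.symm hjl,
          Finset.mem_range.2 hl⟩)]
      rw [h1, act_cpoly_mul hg, hχ l (by omega) a ha, map_zero]
  refine ⟨∑ j ∈ Finset.range N, Polynomial.C (j : ℚ) * E j, cpoly_mem hg _, fun l a ha => ?_⟩
  rw [cpoly_sum, W.act_sum, LinearMap.sum_apply]
  by_cases hl : 2 * X.dim < l
  · rw [W.gr_eq_bot X l hl] at ha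
    rw [(Submodule.mem_bot _).1 ha]
    simp
  · rw [Finset.sum_eq_single l]
    · rw [cpoly_C_mul, W.act_smul, LinearMap.smul_apply, hact l l (by omega) (by omega) a ha,
        if_pos rfl, Rat.cast_natCast]
    · intro j hj hjl
      rw [cpoly_C_mul, W.act_smul, LinearMap.smul_apply,
        hact j l (Finset.mem_range.1 hj) (by omega) a ha, if_neg hjl, smul_zero]
    · intro h1; exact absurd (Finset.mem_range.2 (by omega)) h1

lemma cpoly_comp (p q : ℚ[X]) (g : C.CH (X.prod X)) :
    cpoly C p (cpoly C q g) = cpoly C (p.comp q) g := by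
  rw [cpoly_eq, of_cpoly, cpoly_eq, aeval_comp]

lemma pol_ne_zero (S : Finset ℕ) : pol S ≠ 0 := by
  rw [pol, Finset.prod_ne_zero_iff]
  exact fun j _ => X_sub_C_ne_zero _

/-- If `g` separates the degrees and each homologically trivial correspondence which commutes with
`g` is nilpotent then `X` has a Chow–Künneth decomposition. -/
theorem hasCKIn_of_commutant {g : C.CH (X.prod X)} (h : Separates W X g)
    (hN : CommutantNil W X g) : HasCKIn W X g := by
  obtain ⟨p, hp⟩ := h.exists_degree
  set d := cpoly C p g with hd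
  set u : C.CH (X.prod X) := (CorrRing.of C X).symm
    (aeval (CorrRing.of C X d) (pol (Finset.range (2 * X.dim + 1)))) with hu
  have h1 : u = cpoly C ((pol (Finset.range (2 * X.dim + 1))).comp p) g := by
    rw [← cpoly_comp, ← hd, cpoly_eq]
  obtain ⟨r, hr⟩ := hN u (homTriv_pol hp) (by rw [h1, cpoly_eq]; exact comp_comm_pol g _)
  have h2 : aeval (CorrRing.of C X d) (pol (Finset.range (2 * X.dim + 1)) ^ r) = 0 := by
    rw [map_pow]
    have h3 := of_cpow u r
    rw [hr, map_zero] at h3
    exact h3.symm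
  obtain ⟨π, hπ, hπ'⟩ := exists_CK_poly hp (pow_ne_zero r (pol_ne_zero _)) h2
  refine ⟨π, hπ, fun j => ?_⟩
  obtain ⟨q, hq⟩ := hπ' j
  exact ⟨q.comp p, by rw [hq, ← cpoly_eq, hd, cpoly_comp]⟩

/-- A variety with an algebraic correspondence which separates the degrees has a Chow–Künneth
decomposition. -/
theorem hasCK_of_algebraic {g : C.CH (X.prod X)} (h : Separates W X g) {Q : ℚ[X]} (hQ : Q ≠ 0)
    (h0 : cpoly C Q g = 0) : W.HasCK X := by
  obtain ⟨p, hp⟩ := h.exists_degree
  have h1 : aeval (CorrRing.of C X g) Q = 0 := by rw [← of_cpoly, h0, map_zero]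
  have : Module.Finite ℚ (AdjoinRoot Q) := (AdjoinRoot.powerBasis hQ).finite
  obtain ⟨R, hR, hR'⟩ : ∃ R : ℚ[X], R ≠ 0 ∧ aeval (AdjoinRoot.mk Q p) R = 0 := by
    have := Algebra.IsAlgebraic.isAlgebraic (R := ℚ) (AdjoinRoot.mk Q p)
    exact this
  have h2 : Q ∣ R.comp p := by
    rw [← AdjoinRoot.mk_eq_zero]
    have h3 : AdjoinRoot.mk Q (R.comp p) = aeval (AdjoinRoot.mk Q p) R := by
      have h4 : (AdjoinRoot.mkₐ Q) (aeval p R) = aeval ((AdjoinRoot.mkₐ Q) p) R :=
        (aeval_algHom_apply (AdjoinRoot.mkₐ Q) p R).symm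
      rw [comp_eq_aeval]
      exact h4
    rw [h3, hR']
  obtain ⟨S, hS⟩ := h2
  apply exists_CK_of_algebraic hp hR
  rw [of_cpoly, ← aeval_comp, hS, map_mul, h1, zero_mul]

/-! ### Endomorphisms -/

lemma comp_graph (f : X ⟶ X) (γ : C.CH (X.prod X)) :
    C.comp γ (C.graph f) = C.push (prodMap (𝟙 X) f) γ := by
  have h1 : C.pull (snd X (X.prod X)) (C.push (lift (𝟙 X) f) 1) =
      C.push (lift (fst X X) (snd X X ≫ lift (𝟙 X) f)) (C.pull (snd X X) 1) := by
    refine C.base_change (T := X) (lift (𝟙 X) f) (lift (fst X X) (snd X X ≫ lift (𝟙 X) f)) (snd X X)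
      (snd X (X.prod X)) (fst X _) ?_ isIso_swap ?_ 1
    · simp
    · rw [lift_fst]; exact isIso_swap
  rw [ChowTheory.comp, ChowTheory.graph, ChowTheory.span, h1, ← C.mul_push, ← C.push_comp,
    ← C.pull_comp, map_one, mul_one]
  have e1 : lift (fst X X) (snd X X ≫ lift (𝟙 X) f) ≫ p13 X X X = prodMap (𝟙 X) f := by
    apply hom_ext_prod <;> simp
  have e2 : lift (fst X X) (snd X X ≫ lift (𝟙 X) f) ≫ p12 X X X = 𝟙 _ := by
    apply hom_ext_prod <;> simp
  rw [e1, e2, C.pull_id]

lemma cograph_comp_comp_graph (f : X ⟶ X) (γ : C.CH (X.prod X)) :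
    C.comp (C.cograph f) (C.comp γ (C.graph f)) = C.push (prodMap f f) γ := by
  rw [ChowTheory.cograph_comp, comp_graph, ← C.push_comp]
  have : prodMap (𝟙 X) f ≫ prodMap f (𝟙 X) = prodMap f f := by
    apply hom_ext_prod <;> simp
  rw [this]

lemma cograph_comp_graph (f : X ⟶ X) {m : ℚ} (hm : C.push f 1 = m • 1) :
    C.comp (C.cograph f) (C.graph f) = m • C.diagC X := by
  rw [ChowTheory.cograph_comp, ChowTheory.graph, ChowTheory.span, ← C.push_comp]
  have : lift (𝟙 X) f ≫ prodMap f (𝟙 X) = f ≫ Obj.diag X := by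
    apply hom_ext_prod <;> simp
  rw [this, C.push_comp, hm, map_smul, ChowTheory.diagC]

theorem hasCKIn_of_endomorphism (f : X ⟶ X) {m : ℚ} (hm : HasDegree (C.push f) m)
    (h : Separates W X (graphOf C f)) (hN : EigenNil W X f m) :
    HasCKIn W X (graphOf C f) := by
  apply hasCKIn_of_commutant h
  intro γ hγ hc
  apply hN γ hγ
  have hc' : C.comp γ (C.graph f) = C.comp (C.graph f) γ := hc
  show C.push (prodMap f f) γ = m • γ
  rw [← cograph_comp_comp_graph, hc', ← C.comp_assoc, cograph_comp_graph f hm, C.smul_comp,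
    C.diagC_comp]

/-! ### Murre's conjectures (A) and (D) -/

theorem commutant_of_murre (hP : C.Polarized) (h : ∀ X : 𝒱.Obj, MurreAD W X) (X : 𝒱.Obj)
    {g : C.CH (X.prod X)} (hg : Separates W X g) : CommutantZero W X g := by
  intro γ hγ hc
  obtain ⟨p, hp⟩ := hg.exists_degree
  have h3 : W.Kunneth ∧ ∀ (X : 𝒱.Obj) d, W.IsDegree X d → Lowers W X d :=
    ((tfae (W := W) hP).out 0 2).1 h
  have hL := h3.2 X _ hp
  refine eq_zero_of_eigen hL hγ (q := 0) le_rfl ?_
  rw [zero_smul, sub_eq_zero]
  have h1 : ∀ q : ℚ[X], aeval (CorrRing.of C X g) q * CorrRing.of C X γ =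
      CorrRing.of C X γ * aeval (CorrRing.of C X g) q := by
    intro q
    have hc' : CorrRing.of C X g * CorrRing.of C X γ = CorrRing.of C X γ * CorrRing.of C X g := hc
    induction q using Polynomial.induction_on' with
    | add p q hp hq => rw [map_add, add_mul, mul_add, hp, hq]
    | monomial n c =>
      have h4 : (CorrRing.of C X g) ^ n * CorrRing.of C X γ =
          CorrRing.of C X γ * (CorrRing.of C X g) ^ n := (Commute.pow_left hc' n).eq
      rw [aeval_monomial, mul_assoc, h4, ← mul_assoc, Algebra.commutes, mul_assoc]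
  have h2 := h1 p
  rw [← of_cpoly] at h2
  exact h2

end Pool.Agent.R368
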