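import Pool.Agent.R368.Deg.Defs

/-!
# Correspondences which separate the degrees: definitions
-/

open CategoryTheory CategoryTheory.Limits AlgebraicGeometry
open Pool.Agent.H914 Pool.Agent.H914.VarClass Pool.Agent.H914.VarClass.Obj
open Pool.Agent.R903 Pool.Agent.R368

universe u v w

namespace Pool.Agent.R368

/-- The polynomials `χ_0, …, χ_m` are pairwise coprime. -/
def PairwiseCoprime (m : ℕ) (χ : ℕ → Polynomial ℚ) : Prop :=
  ∀ i ≤ m, ∀ j ≤ m, i ≠ j → IsCoprime (χ i) (χ j)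

/-- `T` kills the subspace `U`. -/
def Kills {K : Type w} [Field K] {V : Type w} [AddCommGroup V] [Module K V] (U : Submodule K V)
    (T : V →ₗ[K] V) : Prop :=
  ∀ a ∈ U, T a = 0

/-- `∑_i p_i s_i`, for a polynomial `p = ∑_i p_i x^i` and a sequence `s`. -/
noncomputable def polySum {V : Type v} [AddCommGroup V] [Module ℚ V] (p : Polynomial ℚ)
    (s : ℕ → V) : V :=
  p.sum fun i a => a • s i

/-- `T x = m x` -/
def IsEigen {V : Type v} [AddCommGroup V] [Module ℚ V] (T : V →ₗ[ℚ] V) (m : ℚ) (x : V) : Prop :=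
  T x = m • x

/-- `T 1 = m`, for a linear operator `T` on a ring. -/
def HasDegree {A : Type v} [CommRing A] [Algebra ℚ A] (T : A →ₗ[ℚ] A) (m : ℚ) : Prop :=
  T 1 = m • 1

variable {k : Type u} [Field k] {𝒱 : VarClass k} {C : ChowTheory.{u, v} 𝒱}

/-- The powers of a correspondence from `X` to `X`. -/
noncomputable def cpow (C : ChowTheory.{u, v} 𝒱) {X : 𝒱.Obj} (g : C.CH (X.prod X)) :
    ℕ → C.CH (X.prod X)
  | 0 => C.diagC X
  | m + 1 => C.comp (cpow C g m) g

/-- The polynomial `p(g)` in a correspondence `g` from `X` to `X`. -/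
noncomputable def cpoly (C : ChowTheory.{u, v} 𝒱) {X : 𝒱.Obj} (p : Polynomial ℚ)
    (g : C.CH (X.prod X)) : C.CH (X.prod X) :=
  polySum p (cpow C g)

/-- `g` in `CH^(dim X)(X × X)` separates the degrees: there are pairwise coprime polynomials
`χ_0, …, χ_(2 dim X)` such that `χ_j(g)` acts as zero on `H^j(X)`. -/
def Separates (W : WeilTheory.{u, v, w} C) (X : 𝒱.Obj) (g : C.CH (X.prod X)) : Prop :=
  g ∈ C.gr (X.prod X) X.dim ∧ ∃ χ : ℕ → Polynomial ℚ, PairwiseCoprime (2 * X.dim) χ ∧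
    ∀ j ≤ 2 * X.dim, Kills (W.gr X j) (W.act (cpoly C (χ j) g))

/-- `X` has a Chow–Künneth decomposition which consists of polynomials in `g`. -/
def HasCKIn (W : WeilTheory.{u, v, w} C) (X : 𝒱.Obj) (g : C.CH (X.prod X)) : Prop :=
  ∃ π : ℕ → C.CH (X.prod X), W.IsCK X π ∧ ∀ j, ∃ p : Polynomial ℚ, π j = cpoly C p g

/-- `γ` is nilpotent. -/
def IsNil (C : ChowTheory.{u, v} 𝒱) {X : 𝒱.Obj} (γ : C.CH (X.prod X)) : Prop :=
  ∃ r, cpow C γ r = 0

/-- `γ ∘ g = g ∘ γ` -/
def Comm (C : ChowTheory.{u, v} 𝒱) {X : 𝒱.Obj} (γ g : C.CH (X.prod X)) : Prop :=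
  C.comp γ g = C.comp g γ

/-- Each homologically trivial correspondence which commutes with `g` is nilpotent. -/
def CommutantNil (W : WeilTheory.{u, v, w} C) (X : 𝒱.Obj) (g : C.CH (X.prod X)) : Prop :=
  ∀ γ, HomTriv W X γ → Comm C γ g → IsNil C γ

/-- Each homologically trivial correspondence which commutes with `g` is zero. -/
def CommutantZero (W : WeilTheory.{u, v, w} C) (X : 𝒱.Obj) (g : C.CH (X.prod X)) : Prop :=
  ∀ γ, HomTriv W X γ → Comm C γ g → γ = 0

/-- The graph of a morphism `f : X ⟶ X`. -/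
noncomputable def graphOf (C : ChowTheory.{u, v} 𝒱) {X : 𝒱.Obj} (f : X ⟶ X) : C.CH (X.prod X) :=
  C.push (lift (𝟙 X) f) 1

/-- Each homologically trivial correspondence `γ` with `(f × f)_* γ = m γ` is nilpotent. -/
def EigenNil (W : WeilTheory.{u, v, w} C) (X : 𝒱.Obj) (f : X ⟶ X) (m : ℚ) : Prop :=
  ∀ γ, HomTriv W X γ → IsEigen (C.push (lift (fst X X ≫ f) (snd X X ≫ f))) m γ → IsNil C γ

end Pool.Agent.R368
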